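import Pool.Agent.N813.CX.Main

/-!
# `Ω`-stable extensions by circle diffeomorphisms

`V n = ℝⁿ`, `DiffM n N r = Diff^r(N)` with its `C^r` topology (`Pool/Agent/H718R2/G0.lean`),
`OmegaStable`, `Omega F = Ω(F)`: `Pool/Agent/TH80/OMS/Defs.lean`; `Per F`: the set of the periodic
points (`Pool/Agent/TH80/OMS/SymDefs.lean`); `IsFlow`: a smooth flow (`Pool/Agent/TH290/CL/Flow.lean`).

In `Pool/Agent/N813/CX/Defs.lean`:
* `CircleExt n N F ψ`: `ψ` is a smooth free action of the circle `ℝ / ℤ` on `N` (a smooth flow with
  `ψ_t y = y` if and only if `t` is an integer), and `F` maps the orbits of `ψ` to orbits, preserving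
  the orientation: `F (ψ_t y) = ψ_(a(t)) (F y)`, with increasing `a`, which depends on `y`. The fibre
  maps are arbitrary otherwise (they need not commute with the action);
* `OrbitMap F ψ π f`: `π : N → B` is a continuous surjective map whose fibres are the orbits of `ψ`,
  and `f : B → B` is the map induced by `F`;
* `ClosingProp f`: for every `δ > 0` there is an `η > 0` such that if `dist (f^m x) x < η`, `m ≥ 1`,
  then there is a point `x'` with `f^m x' = x'` and `dist (f^i x') (f^i x) < δ` for `0 ≤ i ≤ m` (the
  conclusion of the Anosov closing lemma).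
-/

set_option autoImplicit false

open scoped Manifold ContDiff Topology
open Filter Set Metric

universe u v

namespace Pool.Agent.Results.MP_4a0782_an.CircleExtensions

open Pool.Agent.H718R2.G Pool.Agent.W564.SC Pool.Agent.TH80.OMS Pool.Agent.TH290.CL
  Pool.Agent.N813.OF Pool.Agent.N813.CX

/-- Let `N` be a closed manifold, `1 ≤ r ≤ ∞`, let `F ∈ Diff^r(N)` be `Ω`-stable, and suppose that `F`
permutes the orbits of a smooth free action `ψ` of the circle `ℝ / ℤ`, preserving their orientation.
1. There is a `θ₀ > 0` such that two different periodic points of `F` in the same fibre have a distance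
   at least `θ₀`: if `y` and `ψ_t y` are periodic then `|t - j| ≥ θ₀` for all integers `j ≠ t`. In
   particular each fibre contains at most `1 / θ₀` periodic points.
2. Each periodic fibre contains a periodic point.
3. If the map `f` of the space of the orbits induced by `F` has the closing property, then the periodic
   points of `F` are dense in the nonwandering set of `F`. -/
theorem result {n : ℕ} {N : Type u} [TopologicalSpace N] [T2Space N] [CompactSpace N]
    [ChartedSpace (V n) N] [IsManifold (𝓡 n) ∞ N] (r : ℕ∞) (hr : 1 ≤ r) (F : DiffM n N r)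
    (hF : OmegaStable n N r F) (ψ : ℝ → N → N) (h : CircleExt n N F ψ) :
    (∃ θ₀ : ℝ, 0 < θ₀ ∧ ∀ (y : N) (t : ℝ), y ∈ Per F → ψ t y ∈ Per F → ∀ j : ℤ, t ≠ j →
      θ₀ ≤ |t - j|) ∧
    (∀ (x : N) (m : ℕ) (c : ℝ), 1 ≤ m → F^[m] x = ψ c x → ∃ t : ℝ, ψ t x ∈ Per F) ∧
    (∀ (B : Type v) [MetricSpace B] (π : N → B) (f : B → B), OrbitMap F ψ π f → ClosingProp f →
      Omega F ⊆ closure (Per F)) := by
  obtain ⟨a, H, θ₀, hH⟩ := exists_rotFam hr F hF ψ h
  exact ⟨⟨θ₀, hH.pos, fun y t hy ht j hj => gap hr hH y t hy ht j hj⟩,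
    fun x m c hm hx => lock hr hH x m c hm hx,
    fun B _ π f hπ hf => dense hr hH B π f hπ hf⟩

end Pool.Agent.Results.MP_4a0782_an.CircleExtensions
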