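import Pool.Agent.N813.OE.Main

/-!
# `Ω`-stable diffeomorphisms: close returns, periodic points and mixing measures

`V n = ℝⁿ`, `DiffM n N r = Diff^r(N)` with its `C^r` topology (`Pool/Agent/H718R2/G0.lean`),
`OmegaStable`: `Pool/Agent/TH80/OMS/Defs.lean`, `Per F`: periodic points
(`Pool/Agent/TH80/OMS/SymDefs.lean`). `ChartLip n N`: the distance of `N` is compatible with the smooth
structure (good charts are bi-Lipschitz near their centres; `Pool/Agent/Y368/CL/Met.lean`).

In `Pool/Agent/N813/OE/Defs.lean`:
* `ClosesUp F k κ`: if `dist (F^m z) z ≤ κ ρ^k` (`0 < ρ < κ`) and `dist (F^i z) z ≥ ρ` for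
  `0 < i < m`, then there is `x` with `dist x z < ρ` and `F^m x = x`;
* `PerLe F j`: the points with `F^m x = x` for some `1 ≤ m ≤ j`;
* `InSupp μ z`: `z` lies in the support of `μ`;
* `ExpMix1 F μ`: exponential mixing of order three: for some `C, κ > 0, q`, for all functions
  `u, v, w : N → [0, 1]` with Lipschitz constant `L ≥ 1`,
  `|∫ u · v∘F^i · w∘F^(i+j) dμ - ∫u ∫v ∫w| ≤ C L^q exp(-κ min(i, j))`.

In `Pool/Agent/N813/EM/{Defs,DefsF}.lean`: `Frost μ`: `μ(B(x, s)) ≤ C s^δ` for some `δ > 0`; `MixMeas F μ z`:
`μ` is an invariant probability measure with `Frost μ` and mixing of order three with a stretched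
exponential rate `C L^q exp(-κ min(i, j)^β)`, and `z` lies in its support.
-/

set_option autoImplicit false

open scoped Manifold ContDiff Topology
open MeasureTheory Filter Set Metric

universe u

namespace Pool.Agent.Results.MP_4a0782_an.CloseReturns

open Pool.Agent.H718R2.G Pool.Agent.W564.SC Pool.Agent.N813.EM Pool.Agent.Y368.CL
  Pool.Agent.TH80.OMS Pool.Agent.N813.OE

/-- Let `N` be a closed manifold, `1 ≤ r ≤ ∞`, and let `F ∈ Diff^r(N)` be `Ω`-stable (for instance
structurally stable).
1. Every close return of `F` is close to a periodic point of the same period: there are `1 ≤ k ≤ r`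
   and `κ > 0` such that if the orbit of a point `z` returns at the time `m` to the distance `κ ρ^k`
   and not to the distance `ρ` before, then `F^m x = x` for some `x` with `dist x z < ρ`.
2. The support of every invariant probability measure which is mixing of order three with a
   stretched exponential rate, and satisfies a Frostman condition, lies in the closure of the
   periodic points of `F`.
3. If the rate is exponential, the number of periodic points grows exponentially near every point of
   the support: there is `c > 0` such that every ball around every point of the support contains, for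
   all large `j`, at least `exp(c j)` points `x` with `F^m x = x` for some `1 ≤ m ≤ j`. -/
theorem result {n : ℕ} {N : Type u} [MetricSpace N] [CompactSpace N] [MeasurableSpace N]
    [BorelSpace N] [ChartedSpace (V n) N] [IsManifold (𝓡 n) ∞ N] (hN : ChartLip n N) (r : ℕ∞)
    (hr : 1 ≤ r) (F : DiffM n N r) (hF : OmegaStable n N r F) :
    (∃ k : ℕ, 1 ≤ k ∧ (k : ℕ∞) ≤ r ∧ ∃ κ : ℝ, 0 < κ ∧ ClosesUp F k κ) ∧
    (∀ (μ : Measure N) (z : N), MixMeas F μ z → z ∈ closure (Per F)) ∧
    (∀ μ : Measure N, IsProbabilityMeasure μ → MeasurePreserving F μ μ → Frost μ → ExpMix1 F μ →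
      ∃ c : ℝ, 0 < c ∧ ∀ z : N, InSupp μ z → ∀ η : ℝ, 0 < η →
        ∀ᶠ j : ℕ in atTop, Real.exp (c * j) ≤ ((PerLe F j ∩ ball z η).ncard : ℝ)) :=
  closeReturns hN hr F hF

end Pool.Agent.Results.MP_4a0782_an.CloseReturns
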