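import Pool.Agent.N15.OT.Asm

/-!
# `Ω`-stable diffeomorphisms are not compact group extensions of mixing systems

`V n = ℝⁿ`, `DiffM n N r = Diff^r(N)` with its `C^r` topology (`Pool/Agent/H718R2/G0.lean`);
`OmegaStable`, `Per F` (`Pool/Agent/TH80/OMS/Defs.lean`, `SymDefs.lean`): `Ω`-stability, periodic points.
Structurally stable diffeomorphisms are `Ω`-stable.

`MixOver k n N F R K z` (`Pool/Agent/N15/OT/DefsF.lean`): `K` is a closed invariant set of `F` which
contains `z`; the maps `R_X = exp(X)`, `X ∈ ℝ^k`, of `N` are smooth, they preserve `K` and commute on `K`
with `F`; the map `F|K` is an extension by the compact connected group of the `R_X` of a bi-Lipschitz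
homeomorphism `g` of a finite dimensional compact metric space `B`, `π : K → B`, and `π z` lies in the
support of a `g`-invariant probability measure which satisfies the Frostman condition and is mixing of
order three, at least with a stretched exponential rate. Near `z` the metric of `B` is Hölder comparable
with the smooth structure. Outside of `K` the diffeomorphism `F` is arbitrary; no hyperbolicity is
assumed.
-/

set_option autoImplicit false

open scoped Manifold ContDiff Topology

universe u v

namespace Pool.Agent.Results.MP_4a0782_an.GroupExtensions

open Pool.Agent.H718R2.G Pool.Agent.TH80.OMS Pool.Agent.N15.OT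

/-- Let `N` be a closed manifold, `1 ≤ r ≤ ∞`, and let `F ∈ Diff^r(N)` be `Ω`-stable (for instance
structurally stable). Suppose that on the closed invariant set `K ∋ z` the map `F` is an extension, by
the compact connected group of the `R_X`, `X ∈ ℝ^k`, of a map `g` for which the point below `z` lies in
the support of a measure as above (`MixOver`). Then `Rigid F R K z`:

* if `k ≥ 1` then a one-parameter group `t ↦ R_(tX)`, `X ≠ 0`, fixes `z`; so the action of the group is
  not locally free at `z`;
* if the group is abelian (the `R_X` form an action of `ℝ^k`) then it fixes `z`;
* if the group is trivial then `z` is a limit of periodic points;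
* if the `R_X` commute with `F` on all of `N` then they fix `z`, and `z` is a limit of periodic points. -/
theorem result {n : ℕ} {N : Type u} [TopologicalSpace N] [T2Space N] [CompactSpace N]
    [ChartedSpace (V n) N] [IsManifold (𝓡 n) ∞ N] (r : ℕ∞) (hr : 1 ≤ r) (F : DiffM n N r)
    (hF : OmegaStable n N r F) (k : ℕ) (R : V k → N → N) (K : Set N) (z : N)
    (h : MixOver.{u, v} k n N F R K z) : Rigid F R K z :=
  mix_rigid hr hF h

end Pool.Agent.Results.MP_4a0782_an.GroupExtensions
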