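import Pool.Agent.N15.OT.Asm

/-!
# `Ω`-stable diffeomorphisms which are hyperbolic along toral orbits

`V n = ℝⁿ`, `DiffM n N r = Diff^r(N)` with its `C^r` topology (`Pool/Agent/H718R2/G0.lean`);
`OmegaStable`, `Per F` (`Pool/Agent/TH80/OMS/Defs.lean`, `SymDefs.lean`): `Ω`-stability, periodic points.
Structurally stable diffeomorphisms are `Ω`-stable.

`TorOver k d n N F R K z` (`Pool/Agent/N15/OT/DefsF.lean`): `K` is a closed invariant set of `F` which
contains `z`; the maps `R_X = exp(X)`, `X ∈ ℝ^k`, of `N` are smooth, they preserve `K` and commute on `K`
with `F`; the map `F|K` is an extension by the compact connected group of the `R_X` of a homeomorphism `g`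
of a compact metric space `B`, `π : K → B`, with the following property: there is a continuous action of
`ℝ^d` on `B` all of whose orbits are `d`-dimensional tori, `g` maps orbits to orbits by affine maps,
`g (S_a b) = S_(A_b a) (g b)`, and `g` is hyperbolic along the orbits (the cocycle `A` is uniformly
hyperbolic). The map induced by `g` on the space of the orbits is ARBITRARY, but the orbit of `π z` is
nonwandering for it. Outside of `K` the diffeomorphism `F` is arbitrary.
-/

set_option autoImplicit false

open scoped Manifold ContDiff Topology

universe u v

namespace Pool.Agent.Results.MP_4a0782_an.ToralOrbits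

open Pool.Agent.H718R2.G Pool.Agent.TH80.OMS Pool.Agent.N15.OT

/-- Let `N` be a closed manifold, `1 ≤ r ≤ ∞`, and let `F ∈ Diff^r(N)` be `Ω`-stable (for instance
structurally stable). Suppose that on the closed invariant set `K ∋ z` the map `F` is an extension, by
the compact connected group of the `R_X`, `X ∈ ℝ^k`, of a map `g` which is hyperbolic along the orbits of
an action of `ℝ^d` with toral orbits, `d ≥ 1`, the orbit below `z` being nonwandering (`TorOver`). Then
`Rigid F R K z`:

* if `k ≥ 1` then a one-parameter group `t ↦ R_(tX)`, `X ≠ 0`, fixes `z`; so the action of the group is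
  not locally free at `z`;
* if the group is abelian (the `R_X` form an action of `ℝ^k`) then it fixes `z`;
* if the group is trivial then `z` is a limit of periodic points;
* if the `R_X` commute with `F` on all of `N` then they fix `z`, and `z` is a limit of periodic points. -/
theorem result {n : ℕ} {N : Type u} [TopologicalSpace N] [T2Space N] [CompactSpace N]
    [ChartedSpace (V n) N] [IsManifold (𝓡 n) ∞ N] (r : ℕ∞) (hr : 1 ≤ r) (F : DiffM n N r)
    (hF : OmegaStable n N r F) (k d : ℕ) (hd : 1 ≤ d) (R : V k → N → N) (K : Set N) (z : N)
    (h : TorOver.{u, v} k d n N F R K z) : Rigid F R K z :=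
  tor_rigid hd hr hF h

end Pool.Agent.Results.MP_4a0782_an.ToralOrbits
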